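import Pool.Agent.Helper676.Hoch

set_option autoImplicit false

/-! Project HAN, section 6 of paper 207 (generic): from `H^n(A, N^*) = 0` for all `n ≥ 1` to
`H^n(A, A^*) = 0` for all `n ≥ 2`, by the row filtration of `A` with left action through
`A → B → A`. -/

namespace Pool.Agent.Helper212Han

open HanHoch

variable {k : Type} [Field k] {A : Type} [Ring A] [Algebra k A]

/-- the dual bimodule: `(a f)(x) = f (x a)`, `(f a)(x) = f (a x)` -/
def Du (M : Bim k A) (h1 : ∀ v, M.r 1 v = v) : Bim k A where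
  V := M.V →ₗ[k] k
  l := LinearMap.mk₂ k (fun a f => f.comp (M.r a))
    (by intro a b f; ext x; simp)
    (by intro c a f; ext x; simp)
    (by intro a f g; ext x; simp)
    (by intro c a f; ext x; simp)
  r := LinearMap.mk₂ k (fun a f => f.comp (M.l a))
    (by intro a b f; ext x; simp)
    (by intro c a f; ext x; simp)
    (by intro a f g; ext x; simp)
    (by intro c a f; ext x; simp)
  l_mul := by intro a b f; ext x; simp [M.r_mul]
  r_mul := by intro a b f; ext x; simp [M.l_mul]
  l_r := by intro a b f; ext x; simp [M.l_r]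
  l_one := by intro f; ext x; simp [h1]

/-- the dual of a short exact sequence -/
def SESDu {K M Q : Bim k A} (S : SES K M Q) (hK : ∀ v, K.r 1 v = v) (hM : ∀ v, M.r 1 v = v)
    (hQ : ∀ v, Q.r 1 v = v) : SES (Du Q hQ) (Du M hM) (Du K hK) where
  i := (LinearMap.lcomp k k S.p : (Q.V →ₗ[k] k) →ₗ[k] (M.V →ₗ[k] k))
  p := (LinearMap.lcomp k k S.i : (M.V →ₗ[k] k) →ₗ[k] (K.V →ₗ[k] k))
  il := by
    intro a f
    change Q.V →ₗ[k] k at f
    refine LinearMap.ext fun x => ?_
    show f (Q.r a (S.p x)) = f (S.p (M.r a x))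
    rw [S.pr]
  ir := by
    intro a f
    change Q.V →ₗ[k] k at f
    refine LinearMap.ext fun x => ?_
    show f (Q.l a (S.p x)) = f (S.p (M.l a x))
    rw [S.pl]
  pl := by
    intro a f
    change M.V →ₗ[k] k at f
    refine LinearMap.ext fun x => ?_
    show f (M.r a (S.i x)) = f (S.i (K.r a x))
    rw [S.ir]
  pr := by
    intro a f
    change M.V →ₗ[k] k at f
    refine LinearMap.ext fun x => ?_
    show f (M.l a (S.i x)) = f (S.i (K.l a x))
    rw [S.il]
  inj := by
    intro f g h
    change Q.V →ₗ[k] k at f g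
    refine LinearMap.ext fun x => ?_
    obtain ⟨y, rfl⟩ := S.surj x
    exact congrArg (fun u : M.V →ₗ[k] k => u y) h
  surj := by
    intro g
    change K.V →ₗ[k] k at g
    obtain ⟨s, hs⟩ := LinearMap.exists_leftInverse_of_injective S.i
      (LinearMap.ker_eq_bot.2 S.inj)
    refine ⟨g.comp s, ?_⟩
    refine LinearMap.ext fun x => ?_
    show g (s (S.i x)) = g x
    have : s (S.i x) = x := congrArg (fun u : K.V →ₗ[k] K.V => u x) hs
    rw [this]
  pi := by
    intro f
    change Q.V →ₗ[k] k at f
    refine LinearMap.ext fun x => ?_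
    show f (S.p (S.i x)) = 0
    rw [S.pi, map_zero]
  ex := by
    intro f hf
    change M.V →ₗ[k] k at f
    obtain ⟨s, hs⟩ := LinearMap.exists_rightInverse_of_surjective S.p
      (LinearMap.range_eq_top.2 S.surj)
    have hs' : ∀ y, S.p (s y) = y := fun y => congrArg (fun u : Q.V →ₗ[k] Q.V => u y) hs
    refine ⟨f.comp s, ?_⟩
    refine LinearMap.ext fun x => ?_
    show f (s (S.p x)) = f x
    have h0 : S.p (s (S.p x) - x) = 0 := by rw [map_sub, hs', sub_self]
    obtain ⟨y, hy⟩ := S.ex _ h0
    have h1 : f (S.i y) = 0 := congrArg (fun u : K.V →ₗ[k] k => u y) hf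
    rw [hy, map_sub, sub_eq_zero] at h1
    exact h1

/-- the regular bimodule -/
def AB (k A : Type) [Field k] [Ring A] [Algebra k A] : Bim k A where
  V := A
  l := LinearMap.mul k A
  r := (LinearMap.mul k A).flip
  l_mul := by intro a b v; simp [mul_assoc]
  r_mul := by intro a b v; simp [mul_assoc]
  l_r := by intro a b v; simp [mul_assoc]
  l_one := by intro v; simp

lemma AB_r1 (v : (AB k A).V) : (AB k A).r 1 v = v := by
  change A at v
  show v * 1 = v
  exact mul_one v

/-- a subspace of `A` with left action through `ρ` and right action through `σ` -/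
def subB (ρ σ : A →ₐ[k] A) (W : Submodule k A) (hl : ∀ a, ∀ x ∈ W, ρ a * x ∈ W)
    (hr : ∀ a, ∀ x ∈ W, x * σ a ∈ W) : Bim k A where
  V := W
  l := LinearMap.mk₂ k (fun a x => ⟨ρ a * x.1, hl a x.1 x.2⟩)
    (by intro a b f; ext; simp [add_mul])
    (by intro c a f; ext; simp)
    (by intro a f g; ext; simp [mul_add])
    (by intro c a f; ext; simp)
  r := LinearMap.mk₂ k (fun a x => ⟨x.1 * σ a, hr a x.1 x.2⟩)
    (by intro a b f; ext; simp [mul_add])
    (by intro c a f; ext; simp)
    (by intro a f g; ext; simp [add_mul])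
    (by intro c a f; ext; simp)
  l_mul := by intro a b v; ext; simp [mul_assoc]
  r_mul := by intro a b v; ext; simp [mul_assoc]
  l_r := by intro a b v; ext; simp [mul_assoc]
  l_one := by intro v; ext; simp

lemma subB_r1 (ρ σ : A →ₐ[k] A) (W : Submodule k A) (hl : ∀ a, ∀ x ∈ W, ρ a * x ∈ W)
    (hr : ∀ a, ∀ x ∈ W, x * σ a ∈ W) (v : (subB ρ σ W hl hr).V) :
    (subB ρ σ W hl hr).r 1 v = v := by
  change W at v
  refine Subtype.ext ?_
  show v.1 * σ 1 = v.1
  rw [map_one, mul_one]

/-- the ideal `ker pr` as a bimodule (regular actions) -/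
def NB (pr : A →ₐ[k] A) : Bim k A :=
  subB (AlgHom.id k A) (AlgHom.id k A) (LinearMap.ker pr.toLinearMap)
    (by
      intro a x hx
      rw [LinearMap.mem_ker, AlgHom.toLinearMap_apply] at hx ⊢
      rw [map_mul, hx, mul_zero])
    (by
      intro a x hx
      rw [LinearMap.mem_ker, AlgHom.toLinearMap_apply] at hx ⊢
      rw [map_mul, hx, zero_mul])

lemma NB_r1 (pr : A →ₐ[k] A) (v : (NB pr).V) : (NB pr).r 1 v = v := subB_r1 _ _ _ _ _ v

/-- `B = range pr` as a bimodule -/
def BB (pr : A →ₐ[k] A) (hpr : ∀ a, pr (pr a) = pr a) : Bim k A :=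
  subB pr pr (LinearMap.range pr.toLinearMap)
    (by
      rintro a x ⟨y, rfl⟩
      exact ⟨pr a * y, by simp [hpr]⟩)
    (by
      rintro a x ⟨y, rfl⟩
      exact ⟨y * pr a, by simp [hpr]⟩)

lemma BB_r1 (pr : A →ₐ[k] A) (hpr : ∀ a, pr (pr a) = pr a) (v : (BB pr hpr).V) :
    (BB pr hpr).r 1 v = v := subB_r1 _ _ _ _ _ v

/-- `0 → N → A → B → 0` -/
def SES_A (pr : A →ₐ[k] A) (hpr : ∀ a, pr (pr a) = pr a) : SES (NB pr) (AB k A) (BB pr hpr) where
  i := (show LinearMap.ker pr.toLinearMap →ₗ[k] A from (LinearMap.ker pr.toLinearMap).subtype)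
  p := (show A →ₗ[k] LinearMap.range pr.toLinearMap from pr.toLinearMap.rangeRestrict)
  il := fun a v => rfl
  ir := fun a v => rfl
  pl := by
    intro a v
    change A at v
    refine Subtype.ext ?_
    show pr (a * v) = pr a * pr v
    rw [map_mul]
  pr := by
    intro a v
    change A at v
    refine Subtype.ext ?_
    show pr (v * a) = pr v * pr a
    rw [map_mul]
  inj := Subtype.coe_injective
  surj := by
    rintro ⟨y, x, rfl⟩
    exact ⟨x, rfl⟩
  pi := by
    intro x
    refine Subtype.ext ?_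
    exact x.2
  ex := by
    intro m hm
    refine ⟨⟨m, congrArg Subtype.val hm⟩, rfl⟩

section rows

variable {N : ℕ} (pr : A →ₐ[k] A) (e : Fin N → A) (χ : Fin N → (A →ₐ[k] k))

/-- elements whose rows `≥ m` vanish -/
def U (m : ℕ) : Submodule k A where
  carrier := {x | ∀ i : Fin N, m ≤ i → e i * x = 0}
  zero_mem' := by intro i _; simp
  add_mem' := by
    intro x y hx hy i hi
    rw [mul_add, hx i hi, hy i hi, add_zero]
  smul_mem' := by
    intro c x hx i hi
    rw [mul_smul_comm, hx i hi, smul_zero]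

lemma U_expand (hsum : ∑ j, e j = 1) (i : Fin N) (a x : A) :
    e i * (a * x) = ∑ j, e i * a * e j * x := by
  rw [← Finset.sum_mul, ← Finset.mul_sum, hsum, mul_one, mul_assoc]

lemma U_left (hsum : ∑ j, e j = 1) (htri : ∀ a (i j : Fin N), j < i → e i * pr a * e j = 0)
    (m : ℕ) (a : A) (x : A) (hx : x ∈ U (k := k) e m) : pr a * x ∈ U (k := k) e m := by
  intro i hi
  rw [U_expand e hsum]
  refine Finset.sum_eq_zero fun j _ => ?_
  rcases lt_or_ge j i with h | h
  · rw [htri a i j h, zero_mul]
  · rw [mul_assoc, hx j (le_trans hi h), mul_zero]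

lemma U_right (m : ℕ) (a : A) (x : A) (hx : x ∈ U (k := k) e m) : x * a ∈ U (k := k) e m := by
  intro i hi
  rw [← mul_assoc, hx i hi, zero_mul]

/-- the bimodule `U m`, left action through `pr` -/
def UB (hsum : ∑ j, e j = 1) (htri : ∀ a (i j : Fin N), j < i → e i * pr a * e j = 0) (m : ℕ) :
    Bim k A :=
  subB pr (AlgHom.id k A) (U (k := k) e m) (U_left pr e hsum htri m) (U_right e m)

lemma UB_r1 (hsum : ∑ j, e j = 1) (htri : ∀ a (i j : Fin N), j < i → e i * pr a * e j = 0)
    (m : ℕ) (v : (UB pr e hsum htri m).V) : (UB pr e hsum htri m).r 1 v = v :=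
  subB_r1 _ _ _ _ _ v

/-- the row `e m A`, left action by the character -/
def rowB (m : Fin N) : Bim k A where
  V := ({
    carrier := {x | e m * x = x}
    zero_mem' := by simp
    add_mem' := by
      intro x y hx hy
      change e m * x = x at hx
      change e m * y = y at hy
      show e m * (x + y) = x + y
      rw [mul_add, hx, hy]
    smul_mem' := by
      intro c x hx
      change e m * x = x at hx
      show e m * (c • x) = c • x
      rw [mul_smul_comm, hx] } : Submodule k A)
  l := LinearMap.mk₂ k (fun a x => χ m a • x)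
    (by intro a b f; rw [map_add, add_smul])
    (by intro c a f; rw [map_smul, smul_eq_mul, mul_smul])
    (by intro a f g; rw [smul_add])
    (by intro c a f; rw [smul_comm])
  r := LinearMap.mk₂ k (fun a x => ⟨x.1 * a, by
        show e m * (x.1 * a) = x.1 * a
        rw [← mul_assoc]; rw [show e m * x.1 = x.1 from x.2]⟩)
    (by intro a b f; ext; simp [mul_add])
    (by intro c a f; ext; simp)
    (by intro a f g; ext; simp [add_mul])
    (by intro c a f; ext; simp)
  l_mul := by
    intro a b v
    show χ m (a * b) • v = χ m a • χ m b • v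
    rw [map_mul, mul_smul]
  r_mul := by intro a b v; ext; simp [mul_assoc]
  l_r := by intro a b v; ext; simp
  l_one := by intro v; ext; simp

lemma rowB_r1 (m : Fin N) (v : (rowB e χ m).V) : (rowB e χ m).r 1 v = v := by
  refine Subtype.ext ?_
  exact mul_one _

/-- the dual of a row has a contraction -/
theorem row_CR (horth : ∀ i j : Fin N, e i * e j = if i = j then e i else 0) (m : Fin N) :
    CR (Du (rowB e χ m) (rowB_r1 e χ m)) := by
  have hem : e m * e m = e m := by rw [horth, if_pos rfl]
  let em : (rowB e χ m).V := ⟨e m, hem⟩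
  let h : (A →ₗ[k] ((rowB e χ m).V →ₗ[k] k)) →ₗ[k] ((rowB e χ m).V →ₗ[k] k) :=
    { toFun := fun t => (t.flip em).comp (Submodule.subtype _)
      map_add' := by
        intro s t
        refine LinearMap.ext fun x => ?_
        rfl
      map_smul' := by
        intro c t
        refine LinearMap.ext fun x => ?_
        rfl }
  refine ⟨h, ?_, ?_, ?_⟩
  · intro a t
    change A →ₗ[k] ((rowB e χ m).V →ₗ[k] k) at t
    refine LinearMap.ext fun x => ?_
    have e1 : t (x.1 : A) (χ m a • em) = χ m a • t (x.1 : A) em := map_smul _ _ _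
    have e2 : t (χ m a • x.1 : A) em = χ m a • t (x.1 : A) em := by
      rw [map_smul]; rfl
    exact e1.trans e2.symm
  · intro a t
    change A →ₗ[k] ((rowB e χ m).V →ₗ[k] k) at t
    refine LinearMap.ext fun x => ?_
    rfl
  · intro f
    change (rowB e χ m).V →ₗ[k] k at f
    refine LinearMap.ext fun x => ?_
    show f ((rowB e χ m).r (Submodule.subtype _ x) em) = f x
    congr 1
    refine Subtype.ext ?_
    exact x.2

/-- `0 → U m → U (m+1) → row m → 0` -/
def SES_U (horth : ∀ i j : Fin N, e i * e j = if i = j then e i else 0) (hsum : ∑ j, e j = 1)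
    (htri : ∀ a (i j : Fin N), j < i → e i * pr a * e j = 0)
    (hdiag : ∀ a (i : Fin N), e i * pr a * e i = χ i a • e i) (m : Fin N) :
    SES (UB pr e hsum htri m) (UB pr e hsum htri (m + 1)) (rowB e χ m) where
  i := Submodule.inclusion (by
    intro x hx i hi
    exact hx i (by omega))
  p := LinearMap.codRestrict _ ((LinearMap.mulLeft k (e m)).comp (Submodule.subtype _)) (by
    intro x
    show e m * (e m * x.1) = e m * x.1
    rw [← mul_assoc, horth, if_pos rfl])
  il := fun a v => rfl
  ir := fun a v => rfl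
  pl := by
    intro a v
    refine Subtype.ext ?_
    change U (k := k) e (m + 1) at v
    show e m * (pr a * v.1) = χ m a • (e m * v.1)
    rw [U_expand e hsum, Finset.sum_eq_single m]
    · rw [hdiag, smul_mul_assoc]
    · intro j _ hj
      rcases lt_or_gt_of_ne hj with h | h
      · rw [htri a m j h, zero_mul]
      · rw [mul_assoc, v.2 j (by exact_mod_cast h), mul_zero]
    · intro h; exact absurd (Finset.mem_univ m) h
  pr := by
    intro a v
    refine Subtype.ext ?_
    change U (k := k) e (m + 1) at v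
    show e m * (v.1 * a) = e m * v.1 * a
    rw [mul_assoc]
  inj := Submodule.inclusion_injective _
  surj := by
    intro x
    have hx : e m * x.1 = x.1 := x.2
    refine ⟨⟨x.1, ?_⟩, Subtype.ext hx⟩
    intro i hi
    rw [← hx, ← mul_assoc, horth, if_neg, zero_mul]
    intro h
    rw [h] at hi
    omega
  pi := by
    intro x
    refine Subtype.ext ?_
    exact x.2 m le_rfl
  ex := by
    intro v hv
    refine ⟨⟨v.1, ?_⟩, rfl⟩
    intro i hi
    rcases Nat.eq_or_lt_of_le hi with h | h
    · have : m = i := Fin.ext h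
      rw [← this]
      exact congrArg Subtype.val hv
    · exact v.2 i h

theorem HVan_of_subsingleton (M : Bim k A) [Subsingleton M.V] (n : ℕ) : HVan n M :=
  CL.hvan ⟨0, fun _ _ => Subsingleton.elim _ _, fun _ _ => Subsingleton.elim _ _⟩ n

theorem HVan_UB (horth : ∀ i j : Fin N, e i * e j = if i = j then e i else 0)
    (hsum : ∑ j, e j = 1)
    (htri : ∀ a (i j : Fin N), j < i → e i * pr a * e j = 0)
    (hdiag : ∀ a (i : Fin N), e i * pr a * e i = χ i a • e i) :
    ∀ m : ℕ, m ≤ N → ∀ n, HVan n (Du (UB pr e hsum htri m) (UB_r1 pr e hsum htri m)) := by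
  intro m
  induction m with
  | zero =>
    intro _ n
    have h1 : Subsingleton (UB pr e hsum htri 0).V := by
      refine ⟨fun x y => Subtype.ext ?_⟩
      have hz : ∀ z : A, z ∈ U (k := k) e 0 → z = 0 := by
        intro z hz
        have : z = ∑ j, e j * z := by rw [← Finset.sum_mul, hsum, one_mul]
        rw [this]
        exact Finset.sum_eq_zero fun j _ => hz j (Nat.zero_le _)
      rw [hz x.1 x.2, hz y.1 y.2]
    have h2 : Subsingleton (Du (UB pr e hsum htri 0) (UB_r1 pr e hsum htri 0)).V := by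
      refine ⟨fun f g => ?_⟩
      change (UB pr e hsum htri 0).V →ₗ[k] k at f g
      refine LinearMap.ext fun x => ?_
      have : x = 0 := Subsingleton.elim _ _
      rw [this, map_zero, map_zero]
    exact HVan_of_subsingleton _ n
  | succ m ih =>
    intro hm n
    let m' : Fin N := ⟨m, hm⟩
    exact HVan.mid (SESDu (SES_U pr e χ horth hsum htri hdiag m') (UB_r1 _ _ _ _ _)
      (UB_r1 _ _ _ _ _) (rowB_r1 _ _ _)) n ((row_CR e χ horth m').hvan n) (ih (by omega) n)

/-- `0 → N → ^BA → B → 0` -/
def SES_P (hsum : ∑ j, e j = 1) (htri : ∀ a (i j : Fin N), j < i → e i * pr a * e j = 0)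
    (hpr : ∀ a, pr (pr a) = pr a) (hN : ∀ x y, pr x = 0 → pr y = 0 → x * y = 0) :
    SES (NB pr) (UB pr e hsum htri N) (BB pr hpr) where
  i := LinearMap.codRestrict _ (LinearMap.ker pr.toLinearMap).subtype (by
    intro x i hi
    exact absurd i.2 (by omega))
  p := pr.toLinearMap.rangeRestrict.comp (Submodule.subtype _)
  il := by
    intro a v
    refine Subtype.ext ?_
    change LinearMap.ker pr.toLinearMap at v
    show a * v.1 = pr a * v.1
    have hv : pr v.1 = 0 := v.2
    have h0 : (a - pr a) * v.1 = 0 := hN _ _ (by rw [map_sub, hpr, sub_self]) hv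
    rw [sub_mul, sub_eq_zero] at h0
    exact h0
  ir := fun a v => rfl
  pl := by
    intro a v
    refine Subtype.ext ?_
    change U (k := k) e N at v
    show pr (pr a * v.1) = pr a * pr v.1
    rw [map_mul, hpr]
  pr := by
    intro a v
    refine Subtype.ext ?_
    change U (k := k) e N at v
    show pr (v.1 * a) = pr v.1 * pr a
    rw [map_mul]
  inj := by
    intro x y h
    refine Subtype.ext ?_
    exact congrArg (fun z : (U (k := k) e N) => z.1) h
  surj := by
    rintro ⟨y, x, rfl⟩
    refine ⟨⟨x, ?_⟩, rfl⟩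
    intro i hi
    exact absurd i.2 (by omega)
  pi := by
    intro x
    refine Subtype.ext ?_
    exact x.2
  ex := by
    intro m hm
    refine ⟨⟨m.1, congrArg Subtype.val hm⟩, rfl⟩

/-- **Section 6.** -/
theorem sec6 (horth : ∀ i j : Fin N, e i * e j = if i = j then e i else 0)
    (hsum : ∑ j, e j = 1)
    (htri : ∀ a (i j : Fin N), j < i → e i * pr a * e j = 0)
    (hdiag : ∀ a (i : Fin N), e i * pr a * e i = χ i a • e i)
    (hpr : ∀ a, pr (pr a) = pr a) (hN : ∀ x y, pr x = 0 → pr y = 0 → x * y = 0)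
    (hNB : ∀ n, HVan n (Du (NB pr) (NB_r1 pr))) (n : ℕ) :
    HVan (n + 1) (Du (AB k A) AB_r1) := by
  have h1 : HVan (n + 1) (Du (BB pr hpr) (BB_r1 pr hpr)) :=
    HVan.shift (SESDu (SES_P pr e hsum htri hpr hN) (NB_r1 pr) (UB_r1 _ _ _ _ _) (BB_r1 pr hpr)) n
      (HVan_UB pr e χ horth hsum htri hdiag N le_rfl (n + 1)) (hNB n)
  exact HVan.mid (SESDu (SES_A pr hpr) (NB_r1 pr) AB_r1 (BB_r1 pr hpr)) (n + 1) h1 (hNB (n + 1))

end rows

end Pool.Agent.Helper212Han
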